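import Pool.Agent.LUB.Stmts

/-!
# Squad LUB, row TOT: sum over the classes
-/

set_option autoImplicit false

open Polynomial NumberField
open Pool.Agent.Helper85_Leo (LeopoldtAt)

namespace Pool.Agent.LUB.H44

open Pool.Agent.LUB

theorem dvd_val (N : ℕ) [NeZero N] (x : ℤ) : (N : ℤ) ∣ x - (((x : ZMod N).val : ℕ) : ℤ) := by
  rw [← ZMod.intCast_zmod_eq_zero_iff_dvd]
  push_cast
  rw [ZMod.natCast_zmod_val, sub_self]

theorem tot : TotStmt := by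
  intro H p _ n r D
  have hp : p.Prime := Fact.out
  have : NeZero (p ^ 3) := ⟨pow_ne_zero 3 hp.ne_zero⟩
  choose K hK using fun (x : (Idx n r D → ZMod (p ^ 3)) × ZMod (p ^ 3)) =>
    H p n r D (fun s => (((x.1 s).val : ℕ) : ℤ)) ((x.2.val : ℕ) : ℤ)
  refine ⟨∑ x, K x, ?_⟩
  intro f u hf hn hc hu hFR
  have hcls : InCls p n D
      (fun s => ((((par n D f u s : ℤ) : ZMod (p ^ 3)).val : ℕ) : ℤ)) f u := by
    refine ⟨⟨hf, hn, hc, hu⟩, fun s => ?_⟩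
    have := dvd_val (p ^ 3) (par n D f u s)
    push_cast at this ⊢
    exact this
  have hsub : {t : ℤ | Exceptional p f u t} ⊆ ⋃ T : ZMod (p ^ 3),
      {t : ℤ | (p : ℤ) ^ 3 ∣ t - ((T.val : ℕ) : ℤ) ∧ Exceptional p f u t} := by
    intro t ht
    refine Set.mem_iUnion.mpr ⟨(t : ZMod (p ^ 3)), ?_, ht⟩
    have := dvd_val (p ^ 3) t
    push_cast at this ⊢
    exact this
  have h1 : ∀ T : ZMod (p ^ 3),
      {t : ℤ | (p : ℤ) ^ 3 ∣ t - ((T.val : ℕ) : ℤ) ∧ Exceptional p f u t}.encard ≤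
        (K (fun s => ((par n D f u s : ℤ) : ZMod (p ^ 3)), T) : ℕ∞) := fun T =>
    hK (fun s => ((par n D f u s : ℤ) : ZMod (p ^ 3)), T) f u hcls hFR
  calc {t : ℤ | Exceptional p f u t}.encard ≤ (⋃ T : ZMod (p ^ 3),
        {t : ℤ | (p : ℤ) ^ 3 ∣ t - ((T.val : ℕ) : ℤ) ∧ Exceptional p f u t}).encard :=
      Set.encard_le_encard hsub
    _ ≤ ∑ T : ZMod (p ^ 3),
        {t : ℤ | (p : ℤ) ^ 3 ∣ t - ((T.val : ℕ) : ℤ) ∧ Exceptional p f u t}.encard :=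
      Set.encard_iUnion_le_of_fintype _
    _ ≤ ∑ T : ZMod (p ^ 3), (K (fun s => ((par n D f u s : ℤ) : ZMod (p ^ 3)), T) : ℕ∞) :=
      Finset.sum_le_sum fun T _ => h1 T
    _ = ((∑ T : ZMod (p ^ 3), K (fun s => ((par n D f u s : ℤ) : ZMod (p ^ 3)), T) : ℕ) : ℕ∞) := by
      push_cast
      rfl
    _ ≤ ((∑ x, K x : ℕ) : ℕ∞) := by
      have h2 : ∑ T : ZMod (p ^ 3), K (fun s => ((par n D f u s : ℤ) : ZMod (p ^ 3)), T) ≤
          ∑ x, K x := by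
        rw [Fintype.sum_prod_type]
        exact Finset.single_le_sum
          (f := fun c : Idx n r D → ZMod (p ^ 3) => ∑ T : ZMod (p ^ 3), K (c, T))
          (fun _ _ => Nat.zero_le _) (Finset.mem_univ _)
      exact_mod_cast h2

end Pool.Agent.LUB.H44
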